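import Pool.Agent.H19.EW.R7

/-!
# Hardy's uncertainty principle for weighted Mertens sums

For a weight `w` on the positive half line let `S_w(x) = ∑_{n ≥ 1} μ(n) w(n/x)`.  A weight in the class `H(α, β)` is
measurable, not almost everywhere zero, and satisfies for some constants `c`, `B`

`|w(u) - c| ≤ B exp(-π α / u²)` for `0 < u ≤ 1`   and   `|w(u)| ≤ B exp(-π β u²)` for `u ≥ 1`.

The exact threshold for the removal of the oscillation of the Mertens function by averaging over scales is `α β = 1`: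

1. if `α β > 1`, then for every `w ∈ H(α, β)` and every `δ > 0` there is a `c > 0` such that for all large `x` and both
   signs some `y ∈ [x, x log x]` has `± S_w(y) ≥ c y^{1/2 - δ}`;
2. if `α β < 1`, there is a `w ∈ H(α, β)` with `|S_w(x)| ≤ C / x²` for all `x > 0`.

This is unconditional.  In the scale of the classes `|w(u) - c| ≤ B exp(-α u^{-b})`, `|w(u)| ≤ B exp(-α u^a)` it decides
the case `a = b = 2` on the critical line `1/a + 1/b = 1`, where the order of growth alone does not decide.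

Proof of 1.  Let `ŵ` be the Mellin transform.  By a kernel argument a zero `ρ` of `ζ` at which `ŵ` vanishes to a smaller
order than `ζ` gives the oscillation `y^{Re ρ}`.  If there is no such zero with `Re ρ ≥ 1/2 - δ`, then
`g = s ŵ P / ξ` is entire, where `P` is a product over the zeros with `Re ρ < 1/2 - δ`; by Carlson's density theorem
these are so few that `P` costs only `exp(ε |s|)`.  Bounds for the Gamma function give exponential growth of `g` in all
directions, and with a suitable `λ` the function `g(s) e^{λ s}` decays like `(α β)^{-|s| / 8}` in both directions of the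
real axis.  By a theorem of Phragmén-Lindelöf type such a function is zero.

Proof of 2.  `w(u) = ∑_{m ≥ 1} φ(m u)`, `φ` a combination of three Gaussians `exp(-π λ x²)`, `β < λ < 1/α`, with
`φ(0) = 0` and `∫ φ = 0`; by Poisson's formula `w` is small near `0`, and `S_w(x) = φ(1/x)`.
-/

open MeasureTheory Filter Topology Set

set_option autoImplicit false

namespace Pool.Agent.Results.MP_a499ba_nt.HardyThreshold

/-- The weighted Mertens sum `S_w(x) = ∑_{n ≥ 1} μ(n) w(n / x)`. -/
noncomputable def S (w : ℝ → ℝ) (x : ℝ) : ℝ := ∑' n : ℕ, ((ArithmeticFunction.moebius n : ℤ) : ℝ) * w (n / x)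

/-- The class `H(α, β)` of weights. -/
structure IsHardy (α β : ℝ) (w : ℝ → ℝ) : Prop where
  measurable : Measurable w
  near : ∃ c B : ℝ, ∀ u : ℝ, 0 < u → u ≤ 1 → |w u - c| ≤ B * Real.exp (-(Real.pi * α / u ^ 2))
  far : ∃ B : ℝ, ∀ u : ℝ, 1 ≤ u → |w u| ≤ B * Real.exp (-(Real.pi * β * u ^ 2))
  nonzero : ¬ ∀ᵐ u ∂(volume.restrict (Ioi (0 : ℝ))), w u = 0

/-- Both signs occur in every far window `[x, x log x]` with the size `y^β`. -/
def Oscillates (w : ℝ → ℝ) (β : ℝ) : Prop :=
  ∃ c : ℝ, 0 < c ∧ ∀ᶠ x : ℝ in atTop, ∀ s : ℝ, s = 1 ∨ s = -1 →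
    ∃ y ∈ Icc x (x * Real.log x), c * y ^ β ≤ s * S w y

theorem hardy {α β : ℝ} (hα : 0 < α) (hβ : 0 < β) {w : ℝ → ℝ} (h : IsHardy α β w) :
    ∃ c B : ℝ, H19.EW.Hardy α β w c B := by
  obtain ⟨c, B1, h1⟩ := h.near
  obtain ⟨B2, h2⟩ := h.far
  refine ⟨c, max (max B1 B2) 0, hα, hβ, le_max_right _ _, h.measurable, ?_, ?_⟩
  · intro u hu hu1
    exact (h1 u hu hu1).trans (mul_le_mul_of_nonneg_right ((le_max_left _ _).trans (le_max_left _ _)) (Real.exp_pos _).le)
  · intro u hu
    exact (h2 u hu).trans (mul_le_mul_of_nonneg_right ((le_max_right _ _).trans (le_max_left _ _)) (Real.exp_pos _).le)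

theorem result (α β : ℝ) (hα : 0 < α) (hβ : 0 < β) :
    (1 < α * β → ∀ w : ℝ → ℝ, IsHardy α β w → ∀ δ : ℝ, 0 < δ → Oscillates w (1 / 2 - δ)) ∧
    (α * β < 1 → ∃ w : ℝ → ℝ, IsHardy α β w ∧ ∃ C : ℝ, ∀ x : ℝ, 0 < x → |S w x| ≤ C / x ^ 2) := by
  refine ⟨fun hab w hw δ hδ => ?_, fun hab => ?_⟩
  · obtain ⟨c, B, h⟩ := hardy hα hβ hw
    exact H19.EW.main_hardy h hw.nonzero hab hδ
  · obtain ⟨w, B, h, hne, hC⟩ := H19.EW.hardy_sharp hα hβ hab
    exact ⟨w, ⟨h.meas, ⟨0, B, h.near⟩, ⟨B, h.far⟩, hne⟩, hC⟩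

end Pool.Agent.Results.MP_a499ba_nt.HardyThreshold
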