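import Pool.Agent.H19.EW.Q4

/-!
# Which weights can remove the oscillation of the Liouville summatory function?

For a weight `w` on the positive half line let

`S_w(x) = ∑_{n ≥ 1} μ(n) w(n/x)`,   `L_w(x) = ∑_{n ≥ 1} λ(n) w(n/x)`,
`κ_w = (1 / (2 ζ(1/2))) ∫_0^∞ w(u) u^{-1/2} du`;

for `w = 1_{(0,1]}` these are the summatory functions `M(x)`, `L(x)` of the question and `κ_w = 1/ζ(1/2)`.  For real
`p` let `V(x) = L_w(x) - κ_w √x + p S_w(x)`; so `p = 0` is the Liouville sum alone.  Unconditionally: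

1. if `w` is bounded and measurable, constant near `0`, zero beyond some point and not almost everywhere zero, then for
   both signs every window `[x, x log x]`, `x` large, contains `y` with `± V(y) ≥ c √y` for some `c > 0`;
2. let `a, b > 0` and `w ∈ W(a, b)`, that is `|w(u) - c| ≤ B exp(-α u^{-b})` for `u ≤ 1` and
   `|w(u)| ≤ B exp(-α u^a)` for `u ≥ 1`.  If `1/a + 1/b < 1/2`, the same holds; if `1/a + 1/b < 1`, the same holds with
   `y^{1/2 - δ}` for every `δ > 0`;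
3. the bound `1` is sharp: there is a positive weight in `W(2, 2)` with `L_w(x) = κ_w √x + O(1)`.

So the Liouville function cannot be freed from its oscillation of size `√x` by averaging over scales, nor by adding a
multiple of the Mertens function, except with weights which are spread out beyond the threshold.

Proof: with a positive kernel having a triangle of zeros, a zero `ρ` of `ζ` gives the oscillation `y^{Re ρ}` as soon as
`ŵ(s) (p + ζ(2s))` vanishes at `ρ` to a smaller order than `ζ`.  The first factor is counted by Jensen's formula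
applied to the Mellin transform, with Stirling's bounds; the second by Jensen's formula in small discs, with the mean
square of `ζ` near `Re s = 1`: it has `o(T log T)` zeros in `Re s ≥ 1/2 - δ₀`.  The pole of `ζ(2s)` at `s = 1/2`, that
is the main term `κ_w √x`, is removed by a rank one correction of the kernel.  Against these counts stand the zeros of
`ζ` itself: one half of them satisfy `Re s ≥ 1/2`, almost all of them `Re s > 1/2 - δ` (Carlson).
-/

open MeasureTheory Filter Topology Set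

set_option autoImplicit false

namespace Pool.Agent.Results.MP_a499ba_nt.LiouvilleWeights

/-- The weighted Mertens sum `S_w(x) = ∑_{n ≥ 1} μ(n) w(n / x)`. -/
noncomputable def S (w : ℝ → ℝ) (x : ℝ) : ℝ := ∑' n : ℕ, ((ArithmeticFunction.moebius n : ℤ) : ℝ) * w (n / x)

/-- The weighted Liouville sum `L_w(x) = ∑_{n ≥ 1} λ(n) w(n / x)`. -/
noncomputable def L (w : ℝ → ℝ) (x : ℝ) : ℝ := ∑' n : ℕ, ((ArithmeticFunction.liouville n : ℤ) : ℝ) * w (n / x)

/-- The coefficient of the main term of `L_w`: `κ_w = (∫_0^∞ w(u) u^{-1/2} du) / (2 ζ(1/2))` (`ζ(1/2)` is real). -/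
noncomputable def kappa (w : ℝ → ℝ) : ℝ :=
  (∫ u in Ioi (0 : ℝ), w u * u ^ (-(1 / 2) : ℝ)) / (2 * (riemannZeta (1 / 2)).re)

/-- `V(x) = L_w(x) - κ_w √x + p S_w(x)`. -/
noncomputable def V (p : ℝ) (w : ℝ → ℝ) (x : ℝ) : ℝ := L w x - kappa w * x ^ (1 / 2 : ℝ) + p * S w x

/-- Bounded weights which are constant near `0`, zero far out, and not almost everywhere zero. -/
structure IsCutoff (w : ℝ → ℝ) : Prop where
  measurable : Measurable w
  bounded : ∃ B : ℝ, ∀ u, |w u| ≤ B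
  near : ∃ η > 0, ∃ c : ℝ, ∀ u, 0 < u → u < η → w u = c
  far : ∃ K : ℝ, ∀ u, K < u → w u = 0
  nonzero : ¬ ∀ᵐ u ∂(volume.restrict (Ioi (0 : ℝ))), w u = 0

/-- The class `W(a, b)` of weights. -/
structure IsWeight (a b : ℝ) (w : ℝ → ℝ) : Prop where
  measurable : Measurable w
  near : ∃ c B α : ℝ, 0 < α ∧ ∀ u : ℝ, 0 < u → u ≤ 1 → |w u - c| ≤ B * Real.exp (-(α * u ^ (-b)))
  far : ∃ B α : ℝ, 0 < α ∧ ∀ u : ℝ, 1 ≤ u → |w u| ≤ B * Real.exp (-(α * u ^ a))
  nonzero : ¬ ∀ᵐ u ∂(volume.restrict (Ioi (0 : ℝ))), w u = 0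

/-- Both signs occur in every far window `[x, x log x]` with the size `y^β`. -/
def Oscillates (f : ℝ → ℝ) (β : ℝ) : Prop :=
  ∃ c : ℝ, 0 < c ∧ ∀ᶠ x : ℝ in atTop, ∀ s : ℝ, s = 1 ∨ s = -1 →
    ∃ y ∈ Icc x (x * Real.log x), c * y ^ β ≤ s * f y

theorem tame {a b : ℝ} (ha : 0 < a) (hb : 0 < b) {w : ℝ → ℝ} (h : IsWeight a b w) :
    ∃ c B α : ℝ, H19.EW.Tame a b w c B α := by
  obtain ⟨c, B1, α1, hα1, h1⟩ := h.near
  obtain ⟨B2, α2, hα2, h2⟩ := h.far
  refine ⟨c, max (max B1 B2) 0, min α1 α2, ha, hb, le_max_right _ _, lt_min hα1 hα2, h.measurable, ?_, ?_⟩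
  · intro u hu hu1
    refine (h1 u hu hu1).trans ?_
    refine mul_le_mul ((le_max_left _ _).trans (le_max_left _ _)) (Real.exp_le_exp.2 ?_) (Real.exp_pos _).le
      (le_max_right _ _)
    have h3 : min α1 α2 * u ^ (-b) ≤ α1 * u ^ (-b) :=
      mul_le_mul_of_nonneg_right (min_le_left _ _) (Real.rpow_nonneg hu.le _)
    linarith
  · intro u hu
    refine (h2 u hu).trans ?_
    refine mul_le_mul ((le_max_right _ _).trans (le_max_left _ _)) (Real.exp_le_exp.2 ?_) (Real.exp_pos _).le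
      (le_max_right _ _)
    have h3 : min α1 α2 * u ^ a ≤ α2 * u ^ a :=
      mul_le_mul_of_nonneg_right (min_le_right _ _) (Real.rpow_nonneg (by linarith) _)
    linarith

/-- Bounded weights which are constant near `0` and vanish far out belong to every class. -/
theorem isWeight_of_compact {w : ℝ → ℝ} (hm : Measurable w) {B c η K : ℝ} (hB : ∀ u, |w u| ≤ B) (hη : 0 < η)
    (hc : ∀ u, 0 < u → u < η → w u = c) (hK : ∀ u, K < u → w u = 0)
    (hne : ¬ ∀ᵐ u ∂(volume.restrict (Ioi (0 : ℝ))), w u = 0) {a b : ℝ} (ha : 0 < a) (hb : 0 < b) : IsWeight a b w := by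
  have hB0 : 0 ≤ B := (abs_nonneg _).trans (hB 0)
  refine ⟨hm, ⟨c, (B + |c|) * Real.exp (η ^ (-b)), 1, one_pos, ?_⟩, ⟨B * Real.exp ((max K 1) ^ a), 1, one_pos, ?_⟩, hne⟩
  · intro u hu hu1
    have hc0 := abs_nonneg c
    rcases lt_or_ge u η with h | h
    · rw [hc u hu h, sub_self, abs_zero]
      positivity
    · have h1 : |w u - c| ≤ B + |c| := (abs_sub _ _).trans (by linarith [hB u])
      have h2 : u ^ (-b) ≤ η ^ (-b) := Real.rpow_le_rpow_of_nonpos hη h (by linarith)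
      have h3 : 1 ≤ Real.exp (η ^ (-b)) * Real.exp (-(1 * u ^ (-b))) := by
        rw [← Real.exp_add]
        exact Real.one_le_exp (by linarith)
      rw [mul_assoc]
      calc |w u - c| ≤ (B + |c|) * 1 := by linarith
        _ ≤ _ := mul_le_mul_of_nonneg_left h3 (by positivity)
  · intro u hu
    rcases lt_or_ge K u with h | h
    · rw [hK u h, abs_zero]
      positivity
    · have h2 : u ^ a ≤ (max K 1) ^ a := Real.rpow_le_rpow (by linarith) (h.trans (le_max_left _ _)) ha.le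
      have h3 : 1 ≤ Real.exp ((max K 1) ^ a) * Real.exp (-(1 * u ^ a)) := by
        rw [← Real.exp_add]
        exact Real.one_le_exp (by linarith)
      rw [mul_assoc]
      calc |w u| ≤ B * 1 := by rw [mul_one]; exact hB u
        _ ≤ _ := mul_le_mul_of_nonneg_left h3 hB0

theorem osc_eq {p : ℝ} {w : ℝ → ℝ} {β : ℝ}
    (h : ∃ c : ℝ, 0 < c ∧ ∀ᶠ x : ℝ in atTop, ∀ s : ℝ, s = 1 ∨ s = -1 →
      ∃ y ∈ Icc x (x * Real.log x), c * y ^ β ≤ s * H19.EW.Vx p 1 w y) : Oscillates (V p w) β := by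
  have e : V p w = H19.EW.Vx p 1 w := by
    funext x
    show L w x - kappa w * x ^ (1 / 2 : ℝ) + p * S w x = p * S w x + 1 * (L w x - kappa w * x ^ (1 / 2 : ℝ))
    ring
  rw [e]
  exact h

theorem result :
    -- cutoffs
    (∀ w : ℝ → ℝ, IsCutoff w → ∀ p : ℝ, Oscillates (V p w) (1 / 2)) ∧
    -- the classes `W(a, b)`
    (∀ a b : ℝ, 0 < a → 0 < b → ∀ w : ℝ → ℝ, IsWeight a b w → ∀ p : ℝ,
      (1 / a + 1 / b < 1 / 2 → Oscillates (V p w) (1 / 2)) ∧
      (1 / a + 1 / b < 1 → ∀ δ : ℝ, 0 < δ → Oscillates (V p w) (1 / 2 - δ))) ∧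
    -- sharpness
    (∃ w : ℝ → ℝ, IsWeight 2 2 w ∧ (∀ u, 0 < u → 0 < w u) ∧
      ∃ C : ℝ, ∀ x : ℝ, 0 < x → |L w x - kappa w * x ^ (1 / 2 : ℝ)| ≤ C) := by
  have hp : ∀ p : ℝ, ¬ (p = 0 ∧ (1:ℝ) = 0) := fun p h => one_ne_zero h.2
  have key : ∀ a b : ℝ, 0 < a → 0 < b → ∀ w : ℝ → ℝ, IsWeight a b w → ∀ p : ℝ,
      (1 / a + 1 / b < 1 / 2 → Oscillates (V p w) (1 / 2)) ∧
      (1 / a + 1 / b < 1 → ∀ δ : ℝ, 0 < δ → Oscillates (V p w) (1 / 2 - δ)) := by
    intro a b ha hb w hw p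
    obtain ⟨c, B, α, ht⟩ := tame ha hb hw
    exact ⟨fun hab => osc_eq (H19.EW.jmain_half ht hw.nonzero hab p 1 (hp p)),
      fun hab δ hδ => osc_eq (H19.EW.jmain_delta ht hw.nonzero hab hδ p 1 (hp p))⟩
  refine ⟨?_, key, ?_⟩
  · intro w hw p
    obtain ⟨B, hB⟩ := hw.bounded
    obtain ⟨η, hη, c, hc⟩ := hw.near
    obtain ⟨K, hK⟩ := hw.far
    exact (key 5 5 (by norm_num) (by norm_num) w
      (isWeight_of_compact hw.measurable hB hη hc hK hw.nonzero (by norm_num) (by norm_num)) p).1 (by norm_num)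
  · refine ⟨H19.EW.wth, ⟨H19.EW.wth_meas, ⟨0, H313.TK.C0, Real.pi / 4 - 1 / 2, ?_, ?_⟩,
      ⟨H313.TK.C0, Real.pi / 4, ?_, ?_⟩, ?_⟩, ?_, H19.EW.wth_SL⟩
    · linarith [Real.pi_gt_three]
    · intro u hu hu1
      obtain ⟨h1, h2⟩ := H19.EW.wth_near hu hu1
      rw [sub_zero, abs_of_pos h1]
      exact h2
    · linarith [Real.pi_gt_three]
    · intro u hu
      obtain ⟨h1, h2⟩ := H19.EW.wth_far hu
      rw [abs_of_pos h1]
      exact h2
    · intro h
      rw [ae_restrict_iff' measurableSet_Ioi] at h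
      have h2 : ∀ᵐ u : ℝ, ¬ u ∈ Ioi (0:ℝ) := by
        filter_upwards [h] with u hu hu0
        have h3 := hu hu0
        have h4 : 0 < H19.EW.wth u := by
          rcases le_total u 1 with h5 | h5
          · exact (H19.EW.wth_near hu0 h5).1
          · exact (H19.EW.wth_far h5).1
        linarith
      rw [ae_iff] at h2
      have h3 : {u : ℝ | ¬ ¬ u ∈ Ioi (0:ℝ)} = Ioi (0:ℝ) := by
        ext u
        simp
      rw [h3, Real.volume_Ioi] at h2
      exact ENNReal.top_ne_zero h2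
    · intro u hu
      rcases le_total u 1 with h5 | h5
      · exact (H19.EW.wth_near hu h5).1
      · exact (H19.EW.wth_far h5).1

end Pool.Agent.Results.MP_a499ba_nt.LiouvilleWeights
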