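import Pool.Agent.H19.EW.J7

/-!
# A one-sided bound for one weighted Mertens sum puts almost all zeros on the line

For a weight `w` on the positive half line let `S_w(x) = ∑_{n ≥ 1} μ(n) w(n/x)`, and let
`F(y) = √y (log log log y)^{5/4}`.  It is known that a one-sided bound `± M(y) ≤ K F(y)` (as in the question) implies
the Riemann Hypothesis and the simplicity of all zeros.  Here `M` is replaced by ONE weighted sum `S_w`, which may hide
zeros.  Suppose that for one sign `s` and every `ε > 0` there are arbitrarily large `x` with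
`s S_w(y) ≤ ε √y log y` on the window `[x, x log x]` (which holds if `s S_w ≤ K F` on arbitrarily far windows).

1. If `w` is bounded and measurable, constant near `0`, zero beyond some point and not almost everywhere zero, then all
   but `O(T)` of the zeros of `ζ` with ordinate in `(0, T]` (counted with multiplicity, there are
   `(T / 2π) log T + O(T)`) are simple and lie on the critical line: almost all zeros.
2. If `|w(u) - c| ≤ B exp(-α u^{-b})` for `u ≤ 1` and `|w(u)| ≤ B exp(-α u^a)` for `u ≥ 1`, then at most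
   `(e/π) (1/a + 1/b) T log T + O(T)` of them fail to be simple and on the line.
-/

open MeasureTheory Filter Topology Set

set_option autoImplicit false

namespace Pool.Agent.Results.MP_a499ba_nt.OneWeight

/-- The weighted Mertens sum `S_w(x) = ∑_{n ≥ 1} μ(n) w(n / x)`. -/
noncomputable def S (w : ℝ → ℝ) (x : ℝ) : ℝ := ∑' n : ℕ, ((ArithmeticFunction.moebius n : ℤ) : ℝ) * w (n / x)

/-- `F(y) = √y (log log log y)^{5/4}`. -/
noncomputable def F (y : ℝ) : ℝ := y ^ (1 / 2 : ℝ) * Real.log (Real.log (Real.log y)) ^ (5 / 4 : ℝ)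

/-- Bounded weights which are constant near `0`, zero far out, and not almost everywhere zero. -/
structure IsCutoff (w : ℝ → ℝ) : Prop where
  measurable : Measurable w
  bounded : ∃ B : ℝ, ∀ u, |w u| ≤ B
  near : ∃ η > 0, ∃ c : ℝ, ∀ u, 0 < u → u < η → w u = c
  far : ∃ K : ℝ, ∀ u, K < u → w u = 0
  nonzero : ¬ ∀ᵐ u ∂(volume.restrict (Ioi (0 : ℝ))), w u = 0

/-- The class `W(a, b)` of weights. -/
structure IsWeight (a b : ℝ) (w : ℝ → ℝ) : Prop where
  measurable : Measurable w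
  near : ∃ c B α : ℝ, 0 < α ∧ ∀ u : ℝ, 0 < u → u ≤ 1 → |w u - c| ≤ B * Real.exp (-(α * u ^ (-b)))
  far : ∃ B α : ℝ, 0 < α ∧ ∀ u : ℝ, 1 ≤ u → |w u| ≤ B * Real.exp (-(α * u ^ a))
  nonzero : ¬ ∀ᵐ u ∂(volume.restrict (Ioi (0 : ℝ))), w u = 0

/-- The one-sided bound: `s S_w(y) = o(√y log y)` on arbitrarily far windows `[x, x log x]`. -/
def OneSided (w : ℝ → ℝ) (s : ℝ) : Prop := ∀ ε : ℝ, 0 < ε → ∃ᶠ x : ℝ in atTop,
  ∀ y ∈ Icc x (x * Real.log x), s * S w y ≤ ε * (y ^ (1 / 2 : ℝ) * Real.log y)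

/-- The zeros of `ζ` in the critical strip with ordinate in `(0, T]`. -/
def Zeros (T : ℝ) : Set ℂ := {ρ : ℂ | riemannZeta ρ = 0 ∧ 0 < ρ.re ∧ ρ.re < 1 ∧ 0 < ρ.im ∧ ρ.im ≤ T}

/-- Simple and on the critical line. -/
def Good (ρ : ℂ) : Prop := ρ.re = 1 / 2 ∧ deriv riemannZeta ρ ≠ 0

/-- The number of the zeros, with multiplicity. -/
noncomputable def total (T : ℝ) : ℝ := ∑ᶠ ρ ∈ Zeros T, (analyticOrderNatAt riemannZeta ρ : ℝ)

/-- The number of the zeros which are not simple or not on the critical line, with multiplicity. -/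
noncomputable def bad (T : ℝ) : ℝ := ∑ᶠ ρ ∈ {ρ ∈ Zeros T | ¬ Good ρ}, (analyticOrderNatAt riemannZeta ρ : ℝ)

theorem tame {a b : ℝ} (ha : 0 < a) (hb : 0 < b) {w : ℝ → ℝ} (h : IsWeight a b w) :
    ∃ c B α : ℝ, H19.EW.Tame a b w c B α := by
  obtain ⟨c, B1, α1, hα1, h1⟩ := h.near
  obtain ⟨B2, α2, hα2, h2⟩ := h.far
  refine ⟨c, max (max B1 B2) 0, min α1 α2, ha, hb, le_max_right _ _, lt_min hα1 hα2, h.measurable, ?_, ?_⟩
  · intro u hu hu1
    refine (h1 u hu hu1).trans ?_
    refine mul_le_mul ((le_max_left _ _).trans (le_max_left _ _)) (Real.exp_le_exp.2 ?_) (Real.exp_pos _).le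
      (le_max_right _ _)
    have h3 : min α1 α2 * u ^ (-b) ≤ α1 * u ^ (-b) :=
      mul_le_mul_of_nonneg_right (min_le_left _ _) (Real.rpow_nonneg hu.le _)
    linarith
  · intro u hu
    refine (h2 u hu).trans ?_
    refine mul_le_mul ((le_max_right _ _).trans (le_max_left _ _)) (Real.exp_le_exp.2 ?_) (Real.exp_pos _).le
      (le_max_right _ _)
    have h3 : min α1 α2 * u ^ a ≤ α2 * u ^ a :=
      mul_le_mul_of_nonneg_right (min_le_right _ _) (Real.rpow_nonneg (by linarith) _)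
    linarith

theorem tame_cutoff {w : ℝ → ℝ} (h : IsCutoff w) : ∃ c B α : ℝ, H19.EW.Tame 1 1 w c B α ∧ H19.EW.Gro 0 0 w c := by
  obtain ⟨B, hB⟩ := h.bounded
  obtain ⟨η, hη, c, hc⟩ := h.near
  obtain ⟨K, hK⟩ := h.far
  have hB0 : 0 ≤ B := (abs_nonneg _).trans (hB 0)
  have hc0 := abs_nonneg c
  have e1 := (Real.exp_pos (η ^ (-1:ℝ))).le
  have e2 := (Real.exp_pos ((max K 1) ^ (1:ℝ))).le
  refine ⟨c, (B + |c|) * (Real.exp (η ^ (-1:ℝ)) + Real.exp ((max K 1) ^ (1:ℝ))), 1,
    ⟨one_pos, one_pos, by positivity, one_pos, h.measurable, ?_, ?_⟩, H19.EW.gro_compact hB hη hc hK⟩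
  · intro u hu hu1
    rcases lt_or_ge u η with h | h
    · rw [hc u hu h, sub_self, abs_zero]
      positivity
    · have h1 : |w u - c| ≤ B + |c| := (abs_sub _ _).trans (by linarith [hB u])
      have h2 : u ^ (-1:ℝ) ≤ η ^ (-1:ℝ) := Real.rpow_le_rpow_of_nonpos hη h (by norm_num)
      have h3 : 1 ≤ Real.exp (η ^ (-1:ℝ)) * Real.exp (-(1 * u ^ (-1:ℝ))) := by
        rw [← Real.exp_add]
        exact Real.one_le_exp (by linarith)
      have h4 : 0 ≤ Real.exp ((max K 1) ^ (1:ℝ)) * Real.exp (-(1 * u ^ (-1:ℝ))) := by positivity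
      calc |w u - c| ≤ (B + |c|) * 1 := by linarith
        _ ≤ (B + |c|) * ((Real.exp (η ^ (-1:ℝ)) + Real.exp ((max K 1) ^ (1:ℝ))) * Real.exp (-(1 * u ^ (-1:ℝ)))) :=
            mul_le_mul_of_nonneg_left (by rw [add_mul]; linarith) (by positivity)
        _ = _ := by ring
  · intro u hu
    rcases lt_or_ge K u with h | h
    · rw [hK u h, abs_zero]
      positivity
    · have h2 : u ^ (1:ℝ) ≤ (max K 1) ^ (1:ℝ) := Real.rpow_le_rpow (by linarith) (h.trans (le_max_left _ _)) (by norm_num)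
      have h3 : 1 ≤ Real.exp ((max K 1) ^ (1:ℝ)) * Real.exp (-(1 * u ^ (1:ℝ))) := by
        rw [← Real.exp_add]
        exact Real.one_le_exp (by linarith)
      have h4 : 0 ≤ Real.exp (η ^ (-1:ℝ)) * Real.exp (-(1 * u ^ (1:ℝ))) := by positivity
      calc |w u| ≤ (B + |c|) * 1 := by linarith [hB u]
        _ ≤ (B + |c|) * ((Real.exp (η ^ (-1:ℝ)) + Real.exp ((max K 1) ^ (1:ℝ))) * Real.exp (-(1 * u ^ (1:ℝ)))) :=
            mul_le_mul_of_nonneg_left (by rw [add_mul]; linarith) (by positivity)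
        _ = _ := by ring

theorem F_small (K ε : ℝ) (hε : 0 < ε) : ∀ᶠ y : ℝ in atTop, K * F y ≤ ε * (y ^ (1 / 2 : ℝ) * Real.log y) := by
  have h1 : Tendsto (fun y : ℝ => Real.log (Real.log y)) atTop atTop :=
    Real.tendsto_log_atTop.comp Real.tendsto_log_atTop
  have h2 := (isLittleO_log_rpow_rpow_atTop (s := 1) (5 / 4) one_pos).bound
    (show 0 < ε / (|K| + 1) by positivity)
  have h3 := h1.eventually h2
  have h4 := h1.eventually (eventually_ge_atTop (Real.exp 1))
  filter_upwards [h3, h4, eventually_ge_atTop 2] with y hy hy2 hy3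
  have hy0 : 0 < y := by linarith
  have hL0 : 0 < Real.log y := Real.log_pos (by linarith)
  have hLL : 0 < Real.log (Real.log y) := (Real.exp_pos 1).trans_le hy2
  have hLLL : 0 ≤ Real.log (Real.log (Real.log y)) := by
    apply Real.log_nonneg
    exact (Real.one_le_exp zero_le_one).trans hy2
  rw [Real.norm_of_nonneg (by positivity), Real.norm_of_nonneg (by positivity), Real.rpow_one] at hy
  have h5 : Real.log (Real.log y) ≤ Real.log y := (Real.log_le_sub_one_of_pos hL0).trans (by linarith)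
  have h6 : 0 < y ^ (1 / 2 : ℝ) := by positivity
  have h7 : 0 ≤ Real.log (Real.log (Real.log y)) ^ (5 / 4 : ℝ) := by positivity
  have h8 : (|K| + 1) * Real.log (Real.log (Real.log y)) ^ (5 / 4 : ℝ) ≤ ε * Real.log y := by
    have hp : 0 < |K| + 1 := by positivity
    calc (|K| + 1) * Real.log (Real.log (Real.log y)) ^ (5 / 4 : ℝ)
        ≤ (|K| + 1) * (ε / (|K| + 1) * Real.log (Real.log y)) := by gcongr
      _ = ε * Real.log (Real.log y) := by field_simp
      _ ≤ ε * Real.log y := by gcongr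
  have h9 : K * Real.log (Real.log (Real.log y)) ^ (5 / 4 : ℝ) ≤ ε * Real.log y := by
    refine le_trans ?_ h8
    exact mul_le_mul_of_nonneg_right ((le_abs_self K).trans (by linarith)) h7
  unfold F
  calc K * (y ^ (1 / 2 : ℝ) * Real.log (Real.log (Real.log y)) ^ (5 / 4 : ℝ))
      = y ^ (1 / 2 : ℝ) * (K * Real.log (Real.log (Real.log y)) ^ (5 / 4 : ℝ)) := by ring
    _ ≤ y ^ (1 / 2 : ℝ) * (ε * Real.log y) := by gcongr
    _ = _ := by ring

/-- a bound by a multiple of `F` on arbitrarily far windows is a one-sided bound -/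
theorem oneSided_of_F {w : ℝ → ℝ} {s K : ℝ}
    (h : ∃ᶠ x : ℝ in atTop, ∀ y ∈ Icc x (x * Real.log x), s * S w y ≤ K * F y) : OneSided w s := by
  intro ε hε
  obtain ⟨Y, hY⟩ := eventually_atTop.1 (F_small K ε hε)
  refine (h.and_eventually (eventually_ge_atTop Y)).mono ?_
  rintro x ⟨h1, h2⟩ y hy
  exact (h1 y hy).trans (hY y (h2.trans hy.1))

theorem result (s : ℝ) (hs : s = 1 ∨ s = -1) :
    -- cutoffs: all but `O(T)` zeros are simple and on the line
    (∀ w : ℝ → ℝ, IsCutoff w → OneSided w s →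
      (∃ C : ℝ, ∀ T : ℝ, 1 ≤ T → bad T ≤ C * T) ∧ Tendsto (fun T => bad T / total T) atTop (𝓝 0)) ∧
    -- the classes `W(a, b)`
    (∀ a b : ℝ, 0 < a → 0 < b → ∀ w : ℝ → ℝ, IsWeight a b w → OneSided w s →
      ∃ C : ℝ, ∀ T : ℝ, 1 ≤ T → bad T ≤ Real.exp 1 / Real.pi * (1 / a + 1 / b) * (T * Real.log T) + C * T) ∧
    -- the hypothesis holds in particular under a bound by `K F`
    (∀ (w : ℝ → ℝ) (K : ℝ), (∃ᶠ x : ℝ in atTop, ∀ y ∈ Icc x (x * Real.log x), s * S w y ≤ K * F y) → OneSided w s) := by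
  refine ⟨?_, ?_, fun w K h => oneSided_of_F h⟩
  · intro w hw hos
    obtain ⟨c, B, α, ht, hG⟩ := tame_cutoff hw
    obtain ⟨C, hC, h⟩ := H19.EW.bad_count ht hw.nonzero le_rfl le_rfl hG hs hos
    have h2 : ∀ T : ℝ, 1 ≤ T → bad T ≤ C * T := by
      intro T hT
      have := h T hT
      rw [add_zero, mul_zero, zero_div, zero_mul, zero_add] at this
      exact this
    refine ⟨⟨C, h2⟩, H19.EW.ratio_zero (fun T => ?_) h2⟩
    exact H19.EW.fsum_nonneg _ _
  · intro a b ha hb w hw hos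
    obtain ⟨c, B, α, ht⟩ := tame ha hb hw
    obtain ⟨C, hC, h⟩ := H19.EW.bad_count ht hw.nonzero (by positivity) (by positivity) ht.gro hs hos
    refine ⟨C, fun T hT => (h T hT).trans (le_of_eq ?_)⟩
    ring

end Pool.Agent.Results.MP_a499ba_nt.OneWeight
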