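import Pool.Agent.H19.EW.Fin

/-!
# Which weights can remove the oscillation of the Mertens function?

For a weight `w` on the positive half line let `S_w(x) = ∑_{n ≥ 1} μ(n) w(n/x)`; for `w = 1_{(0,1]}` this is the Mertens
function `M(x)`.  It is shown that, unconditionally, no reasonable weight removes the oscillation of size `√x`, and the
exact amount of freedom is determined.  Let `a, b > 0` and let `w` be a measurable weight, not almost everywhere zero,
such that for some constants `c`, `B` and `α > 0`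

`|w(u) - c| ≤ B exp(-α u^{-b})` for `u ≤ 1`   and   `|w(u)| ≤ B exp(-α u^a)` for `u ≥ 1`

(class `W(a, b)`; bounded weights which are constant near `0` and vanish beyond some point belong to all of them).

1. If `1/a + 1/b < 1/2`, then for both signs every window `[x, x log x]`, `x` large, contains `y` with
   `± S_w(y) ≥ c √y` for some `c > 0`.  In particular this holds for all bounded measurable weights, not almost
   everywhere zero, which are constant near `0` and vanish beyond some point.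
2. If `1/a + 1/b < 1`, the same holds with `y^{1/2-δ}` for every `δ > 0`.
3. The bound `1` is sharp: there is a positive weight in `W(2, 2)` with `S_w(x) = O(x^{-2})`.

Proof: by a positive kernel with a triangle of zeros, every zero `ρ` of `ζ` at which the Mellin transform of `w`
vanishes to a smaller order than `ζ` gives the oscillation `y^{Re ρ}` in the windows; by Jensen's formula and Stirling's
bounds the transform has at most `((1/a + 1/b)/π + o(1)) T log T` zeros up to height `T` (on logarithmic average), and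
`ζ` has `(1/π + o(1)) T log T`, of which at least one half lie in `Re s ≥ 1/2` and almost all (Carlson) in
`Re s > 1/2 - δ`.
-/

open MeasureTheory Filter Topology Set

set_option autoImplicit false

namespace Pool.Agent.Results.MP_a499ba_nt.WeightedOscillation

/-- The weighted Mertens sum `S_w(x) = ∑_{n ≥ 1} μ(n) w(n / x)`. -/
noncomputable def S (w : ℝ → ℝ) (x : ℝ) : ℝ := ∑' n : ℕ, ((ArithmeticFunction.moebius n : ℤ) : ℝ) * w (n / x)

/-- The class `W(a, b)` of weights. -/
structure IsWeight (a b : ℝ) (w : ℝ → ℝ) : Prop where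
  measurable : Measurable w
  near : ∃ c B α : ℝ, 0 < α ∧ ∀ u : ℝ, 0 < u → u ≤ 1 → |w u - c| ≤ B * Real.exp (-(α * u ^ (-b)))
  far : ∃ B α : ℝ, 0 < α ∧ ∀ u : ℝ, 1 ≤ u → |w u| ≤ B * Real.exp (-(α * u ^ a))
  nonzero : ¬ ∀ᵐ u ∂(volume.restrict (Ioi (0 : ℝ))), w u = 0

/-- Both signs occur in every far window `[x, x log x]` with the size `y^β`. -/
def Oscillates (w : ℝ → ℝ) (β : ℝ) : Prop :=
  ∃ c : ℝ, 0 < c ∧ ∀ᶠ x : ℝ in atTop, ∀ s : ℝ, s = 1 ∨ s = -1 →
    ∃ y ∈ Icc x (x * Real.log x), c * y ^ β ≤ s * S w y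

theorem tame {a b : ℝ} (ha : 0 < a) (hb : 0 < b) {w : ℝ → ℝ} (h : IsWeight a b w) :
    ∃ c B α : ℝ, H19.EW.Tame a b w c B α := by
  obtain ⟨c, B1, α1, hα1, h1⟩ := h.near
  obtain ⟨B2, α2, hα2, h2⟩ := h.far
  refine ⟨c, max (max B1 B2) 0, min α1 α2, ha, hb, le_max_right _ _, lt_min hα1 hα2, h.measurable, ?_, ?_⟩
  · intro u hu hu1
    refine (h1 u hu hu1).trans ?_
    refine mul_le_mul ((le_max_left _ _).trans (le_max_left _ _)) (Real.exp_le_exp.2 ?_) (Real.exp_pos _).le
      (le_max_right _ _)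
    have h3 : min α1 α2 * u ^ (-b) ≤ α1 * u ^ (-b) :=
      mul_le_mul_of_nonneg_right (min_le_left _ _) (Real.rpow_nonneg hu.le _)
    linarith
  · intro u hu
    refine (h2 u hu).trans ?_
    refine mul_le_mul ((le_max_right _ _).trans (le_max_left _ _)) (Real.exp_le_exp.2 ?_) (Real.exp_pos _).le
      (le_max_right _ _)
    have h3 : min α1 α2 * u ^ a ≤ α2 * u ^ a :=
      mul_le_mul_of_nonneg_right (min_le_right _ _) (Real.rpow_nonneg (by linarith) _)
    linarith

/-- Bounded weights which are constant near `0` and vanish far out belong to every class. -/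
theorem isWeight_of_compact {w : ℝ → ℝ} (hm : Measurable w) {B c η K : ℝ} (hB : ∀ u, |w u| ≤ B) (hη : 0 < η)
    (hc : ∀ u, 0 < u → u < η → w u = c) (hK : ∀ u, K < u → w u = 0)
    (hne : ¬ ∀ᵐ u ∂(volume.restrict (Ioi (0 : ℝ))), w u = 0) {a b : ℝ} (ha : 0 < a) (hb : 0 < b) : IsWeight a b w := by
  have hB0 : 0 ≤ B := (abs_nonneg _).trans (hB 0)
  refine ⟨hm, ⟨c, (B + |c|) * Real.exp (η ^ (-b)), 1, one_pos, ?_⟩, ⟨B * Real.exp ((max K 1) ^ a), 1, one_pos, ?_⟩, hne⟩
  · intro u hu hu1
    have hc0 := abs_nonneg c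
    rcases lt_or_ge u η with h | h
    · rw [hc u hu h, sub_self, abs_zero]
      positivity
    · have h1 : |w u - c| ≤ B + |c| := (abs_sub _ _).trans (by linarith [hB u])
      have h2 : u ^ (-b) ≤ η ^ (-b) := Real.rpow_le_rpow_of_nonpos hη h (by linarith)
      have h3 : 1 ≤ Real.exp (η ^ (-b)) * Real.exp (-(1 * u ^ (-b))) := by
        rw [← Real.exp_add]
        exact Real.one_le_exp (by linarith)
      rw [mul_assoc]
      calc |w u - c| ≤ (B + |c|) * 1 := by linarith
        _ ≤ _ := mul_le_mul_of_nonneg_left h3 (by positivity)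
  · intro u hu
    rcases lt_or_ge K u with h | h
    · rw [hK u h, abs_zero]
      positivity
    · have h2 : u ^ a ≤ (max K 1) ^ a := Real.rpow_le_rpow (by linarith) (h.trans (le_max_left _ _)) ha.le
      have h3 : 1 ≤ Real.exp ((max K 1) ^ a) * Real.exp (-(1 * u ^ a)) := by
        rw [← Real.exp_add]
        exact Real.one_le_exp (by linarith)
      rw [mul_assoc]
      calc |w u| ≤ B * 1 := by rw [mul_one]; exact hB u
        _ ≤ _ := mul_le_mul_of_nonneg_left h3 hB0

theorem result :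
    -- every bounded weight, constant near `0` and zero far out
    (∀ w : ℝ → ℝ, Measurable w → (∃ B : ℝ, ∀ u, |w u| ≤ B) → (∃ η > 0, ∃ c : ℝ, ∀ u, 0 < u → u < η → w u = c) →
      (∃ K : ℝ, ∀ u, K < u → w u = 0) → (¬ ∀ᵐ u ∂(volume.restrict (Ioi (0 : ℝ))), w u = 0) →
      Oscillates w (1 / 2)) ∧
    -- the classes `W(a, b)`
    (∀ a b : ℝ, 0 < a → 0 < b → ∀ w : ℝ → ℝ, IsWeight a b w →
      (1 / a + 1 / b < 1 / 2 → Oscillates w (1 / 2)) ∧
      (1 / a + 1 / b < 1 → ∀ δ : ℝ, 0 < δ → Oscillates w (1 / 2 - δ))) ∧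
    -- sharpness
    (∃ w : ℝ → ℝ, IsWeight 2 2 w ∧ (∀ u, 0 < u → 0 < w u) ∧ ∃ C : ℝ, ∀ x : ℝ, 0 < x → |S w x| ≤ C / x ^ 2) := by
  have key : ∀ a b : ℝ, 0 < a → 0 < b → ∀ w : ℝ → ℝ, IsWeight a b w →
      (1 / a + 1 / b < 1 / 2 → Oscillates w (1 / 2)) ∧
      (1 / a + 1 / b < 1 → ∀ δ : ℝ, 0 < δ → Oscillates w (1 / 2 - δ)) := by
    intro a b ha hb w hw
    obtain ⟨c, B, α, ht⟩ := tame ha hb hw
    exact ⟨fun hab => H19.EW.main_half ht hw.nonzero hab, fun hab δ hδ => H19.EW.main_delta ht hw.nonzero hab hδ⟩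
  refine ⟨?_, key, ?_⟩
  · rintro w hm ⟨B, hB⟩ ⟨η, hη, c, hc⟩ ⟨K, hK⟩ hne
    exact (key 5 5 (by norm_num) (by norm_num) w
      (isWeight_of_compact hm hB hη hc hK hne (by norm_num) (by norm_num))).1 (by norm_num)
  · refine ⟨H19.EW.wth, ⟨H19.EW.wth_meas, ⟨0, H313.TK.C0, Real.pi / 4 - 1 / 2, ?_, ?_⟩,
      ⟨H313.TK.C0, Real.pi / 4, ?_, ?_⟩, ?_⟩, ?_, 48, ?_⟩
    · linarith [Real.pi_gt_three]
    · intro u hu hu1
      obtain ⟨h1, h2⟩ := H19.EW.wth_near hu hu1
      rw [sub_zero, abs_of_pos h1]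
      exact h2
    · linarith [Real.pi_gt_three]
    · intro u hu
      obtain ⟨h1, h2⟩ := H19.EW.wth_far hu
      rw [abs_of_pos h1]
      exact h2
    · intro h
      rw [ae_restrict_iff' measurableSet_Ioi] at h
      have h2 : ∀ᵐ u : ℝ, ¬ u ∈ Ioi (0:ℝ) := by
        filter_upwards [h] with u hu hu0
        have h3 := hu hu0
        have h4 : 0 < H19.EW.wth u := by
          rcases le_total u 1 with h5 | h5
          · exact (H19.EW.wth_near hu0 h5).1
          · exact (H19.EW.wth_far h5).1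
        linarith
      rw [ae_iff] at h2
      have h3 : {u : ℝ | ¬ ¬ u ∈ Ioi (0:ℝ)} = Ioi (0:ℝ) := by
        ext u
        simp
      rw [h3, Real.volume_Ioi] at h2
      exact ENNReal.top_ne_zero h2
    · intro u hu
      rcases le_total u 1 with h5 | h5
      · exact (H19.EW.wth_near hu h5).1
      · exact (H19.EW.wth_far h5).1
    · intro x hx
      have h1 : S H19.EW.wth x = H313.TK.P (1 / x) := H19.EW.wth_S hx
      rw [h1]
      refine (H313.TK.P_small _).trans (le_of_eq ?_)
      field_simp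

end Pool.Agent.Results.MP_a499ba_nt.WeightedOscillation
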